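import Mathlib

/-!
# The `d`-reflection preserves arbitrary products
-/

namespace Pool.Agent.Results.MP_c8df5e_gt.DReflectionProducts

open Set Topology

universe u

/-- The specialization order `x ≤ y` iff `x ∈ closure {y}`. -/
def SpecLE {X : Type*} [TopologicalSpace X] (x y : X) : Prop := x ∈ closure ({y} : Set X)

/-- `s` is the supremum of `D` in the specialization order. -/
def IsSup {X : Type*} [TopologicalSpace X] (D : Set X) (s : X) : Prop :=
  (∀ d ∈ D, SpecLE d s) ∧ ∀ t : X, (∀ d ∈ D, SpecLE d t) → SpecLE s t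

/-- A `d`-space (monotone convergence space): a `T₀` space in which every directed set `D` has a
supremum `s`, and every open set containing `s` meets `D`. -/
def IsDSpace (X : Type*) [TopologicalSpace X] : Prop :=
  T0Space X ∧ ∀ D : Set X, D.Nonempty → DirectedOn SpecLE D →
    ∃ s, IsSup D s ∧ ∀ U : Set X, IsOpen U → s ∈ U → (D ∩ U).Nonempty

/-- `(X', μ)` is a `d`-reflection of `X`. -/
def IsDReflection {X X' : Type u} [TopologicalSpace X] [TopologicalSpace X'] (μ : X → X') : Prop :=
  IsDSpace X' ∧ Continuous μ ∧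
    ∀ (Y : Type u) [TopologicalSpace Y], IsDSpace Y → ∀ f : X → Y, Continuous f →
      ∃! g : X' → Y, Continuous g ∧ g ∘ μ = f

theorem specLE_iff {X : Type*} [TopologicalSpace X] {x y : X} :
    SpecLE x y ↔ ∀ U : Set X, IsOpen U → x ∈ U → y ∈ U := by
  unfold SpecLE
  rw [← specializes_iff_mem_closure, specializes_iff_forall_open]

theorem specLE_refl {X : Type*} [TopologicalSpace X] (x : X) : SpecLE x x :=
  specLE_iff.2 fun _ _ h => h

theorem SpecLE.trans {X : Type*} [TopologicalSpace X] {x y z : X} (h : SpecLE x y)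
    (h' : SpecLE y z) : SpecLE x z :=
  specLE_iff.2 fun U hU hx => specLE_iff.1 h' U hU (specLE_iff.1 h U hU hx)

theorem SpecLE.map {X Y : Type*} [TopologicalSpace X] [TopologicalSpace Y] {x y : X} {f : X → Y}
    (hf : Continuous f) (h : SpecLE x y) : SpecLE (f x) (f y) :=
  specLE_iff.2 fun U hU hx => specLE_iff.1 h _ (hU.preimage hf) hx

theorem eq_of_specLE {X : Type*} [TopologicalSpace X] [T0Space X] {x y : X} (h : SpecLE x y)
    (h' : SpecLE y x) : x = y := by
  refine T0Space.t0 ?_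
  rw [inseparable_iff_forall_isOpen]
  exact fun U hU => ⟨specLE_iff.1 h U hU, specLE_iff.1 h' U hU⟩

theorem specLE_pi {I : Type*} {X : I → Type*} [∀ i, TopologicalSpace (X i)] {x y : ∀ i, X i} :
    SpecLE x y ↔ ∀ i, SpecLE (x i) (y i) := by
  unfold SpecLE
  simp only [← specializes_iff_mem_closure]
  exact specializes_pi

/-- directed convergence -/
def DLim {X : Type*} [TopologicalSpace X] (D : Set X) (s : X) : Prop :=
  (∀ d ∈ D, SpecLE d s) ∧ ∀ U : Set X, IsOpen U → s ∈ U → (D ∩ U).Nonempty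

theorem DLim.isSup {X : Type*} [TopologicalSpace X] {D : Set X} {s : X} (h : DLim D s) :
    IsSup D s := by
  refine ⟨h.1, fun t ht => specLE_iff.2 fun U hU hs => ?_⟩
  obtain ⟨d, hd, hdU⟩ := h.2 U hU hs
  exact specLE_iff.1 (ht d hd) U hU hdU

theorem DLim.unique {X : Type*} [TopologicalSpace X] [T0Space X] {D : Set X} {s t : X}
    (h : DLim D s) (h' : DLim D t) : s = t :=
  eq_of_specLE (h.isSup.2 t h'.1) (h'.isSup.2 s h.1)

theorem isDSpace_iff {X : Type*} [TopologicalSpace X] :
    IsDSpace X ↔ T0Space X ∧ ∀ D : Set X, D.Nonempty → DirectedOn SpecLE D → ∃ s, DLim D s := by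
  constructor
  · rintro ⟨h0, h⟩
    refine ⟨h0, fun D hne hD => ?_⟩
    obtain ⟨s, hs, hs'⟩ := h D hne hD
    exact ⟨s, hs.1, hs'⟩
  · rintro ⟨h0, h⟩
    refine ⟨h0, fun D hne hD => ?_⟩
    obtain ⟨s, hs⟩ := h D hne hD
    exact ⟨s, hs.isSup, hs.2⟩

theorem DirectedOn.image_cont {X Y : Type*} [TopologicalSpace X] [TopologicalSpace Y] {D : Set X}
    {f : X → Y} (hf : Continuous f) (hD : DirectedOn SpecLE D) : DirectedOn SpecLE (f '' D) := by
  rintro _ ⟨a, ha, rfl⟩ _ ⟨b, hb, rfl⟩
  obtain ⟨c, hc, hac, hbc⟩ := hD a ha b hb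
  exact ⟨f c, ⟨c, hc, rfl⟩, hac.map hf, hbc.map hf⟩

theorem DLim.image {X Y : Type*} [TopologicalSpace X] [TopologicalSpace Y] {D : Set X} {s : X}
    {f : X → Y} (hf : Continuous f) (h : DLim D s) : DLim (f '' D) (f s) := by
  refine ⟨?_, ?_⟩
  · rintro _ ⟨a, ha, rfl⟩
    exact (h.1 a ha).map hf
  · intro U hU hs
    obtain ⟨d, hd, hdU⟩ := h.2 _ (hU.preimage hf) hs
    exact ⟨f d, ⟨d, hd, rfl⟩, hdU⟩

/-- closed under directed limits -/
def DClosed {X : Type*} [TopologicalSpace X] (S : Set X) : Prop :=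
  ∀ D : Set X, D.Nonempty → DirectedOn SpecLE D → D ⊆ S → ∀ s, DLim D s → s ∈ S

/-- a `d`-closed subset of a `d`-space is a `d`-space -/
theorem DClosed.isDSpace {X : Type*} [TopologicalSpace X] (hX : IsDSpace X) {S : Set X}
    (hS : DClosed S) : IsDSpace S := by
  rw [isDSpace_iff] at hX ⊢
  obtain ⟨h0, h⟩ := hX
  refine ⟨inferInstance, fun D hne hD => ?_⟩
  have hD' := DirectedOn.image_cont continuous_subtype_val hD
  obtain ⟨s, hs⟩ := h _ (hne.image _) hD'
  have hsS : s ∈ S := hS _ (hne.image _) hD' (by rintro _ ⟨a, _, rfl⟩; exact a.2) s hs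
  refine ⟨⟨s, hsS⟩, ?_, ?_⟩
  · intro d hd
    rw [specLE_iff]
    rintro _ ⟨V, hV, rfl⟩ hdV
    exact specLE_iff.1 (hs.1 d ⟨d, hd, rfl⟩) V hV hdV
  · rintro _ ⟨V, hV, rfl⟩ hsV
    obtain ⟨_, ⟨d, hd, rfl⟩, hdV⟩ := hs.2 V hV hsV
    exact ⟨d, hd, hdV⟩

theorem IsDReflection.generates {X X' : Type u} [TopologicalSpace X] [TopologicalSpace X']
    {μ : X → X'} (h : IsDReflection μ) {S : Set X'} (hr : ∀ x, μ x ∈ S) (hS : DClosed S) :
    ∀ y, y ∈ S := by
  obtain ⟨hX', hμ, huniv⟩ := h
  obtain ⟨g, ⟨hg, hgμ⟩, -⟩ := huniv S (hS.isDSpace hX') (fun x => ⟨μ x, hr x⟩)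
    (hμ.subtype_mk _)
  obtain ⟨k, -, hk⟩ := huniv X' hX' μ hμ
  have h1 := hk (fun y => (g y : X')) ⟨continuous_subtype_val.comp hg, by
    funext x
    have := congrFun hgμ x
    simp only [Function.comp] at this ⊢
    rw [this]⟩
  have h2 := hk id ⟨continuous_id, rfl⟩
  intro y
  have h3 : ((g y : X')) = y := by
    have := congrFun (h1.trans h2.symm) y
    simpa using this
  rw [← h3]
  exact (g y).2

/-- The (lifted) Sierpinski space is a `d`-space. -/
theorem isDSpace_sierpinski : IsDSpace (ULift.{u} Prop) := by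
  rw [isDSpace_iff]
  refine ⟨?_, ?_⟩
  · exact IsEmbedding.uliftDown.t0Space
  · intro D hne hD
    have hle : ∀ x y : ULift.{u} Prop, (x.down → y.down) → SpecLE x y := by
      rintro ⟨x⟩ ⟨y⟩ hxy
      rw [specLE_iff]
      rintro _ ⟨V, hV, rfl⟩ hx
      by_cases hx' : x
      · have hy' : y := hxy hx'
        simp only [mem_preimage] at hx ⊢
        simpa [hx', hy'] using hx
      · simp only [mem_preimage] at hx ⊢
        have hxF : x = False := by simpa using hx'
        have h1 : V ∈ 𝓝 (False : Prop) := hV.mem_nhds (by rw [← hxF]; exact hx)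
        rw [nhds_false, Filter.mem_top] at h1
        rw [h1]; trivial
    by_cases hT : ∃ d ∈ D, d.down
    · obtain ⟨d, hd, hdT⟩ := hT
      refine ⟨d, fun a _ => hle a d fun _ => hdT, fun U _ hU => ⟨d, hd, hU⟩⟩
    · push Not at hT
      obtain ⟨d, hd⟩ := hne
      refine ⟨d, fun a ha => hle a d fun h => (hT a ha h).elim, fun U _ hU => ⟨d, hd, hU⟩⟩

theorem IsDReflection.isInducing {X X' : Type u} [TopologicalSpace X] [TopologicalSpace X']
    {μ : X → X'} (h : IsDReflection μ) : IsInducing μ := by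
  rw [isInducing_iff]
  refine TopologicalSpace.ext ?_
  funext U
  refine propext ⟨fun hU => ?_, ?_⟩
  · have hU' : IsOpen U := hU
    have hc : Continuous (fun x : X => (ULift.up (x ∈ U) : ULift.{u} Prop)) :=
      continuous_uliftUp.comp (continuous_Prop.2 hU')
    obtain ⟨g, ⟨hg, hgμ⟩, -⟩ := h.2.2 (ULift.{u} Prop) isDSpace_sierpinski _ hc
    have hgd : Continuous (fun y => (g y).down) := continuous_uliftDown.comp hg
    refine ⟨{y | (g y).down}, continuous_Prop.1 hgd, ?_⟩
    ext x
    have := congrFun hgμ x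
    simp only [Function.comp] at this
    simp only [mem_preimage, mem_setOf_eq, this]
  · rintro ⟨V, hV, rfl⟩
    exact hV.preimage h.2.1

/-- The main lemma: the product of the images generates. -/
theorem pi_generates {I : Type u} {X X' : I → Type u} [∀ i, TopologicalSpace (X i)]
    [∀ i, TopologicalSpace (X' i)] {μ : ∀ i, X i → X' i} (h : ∀ i, IsDReflection (μ i))
    {S : Set (∀ i, X' i)} (hr : ∀ x : ∀ i, X i, (fun i => μ i (x i)) ∈ S) (hS : DClosed S) :
    ∀ y, y ∈ S := by
  classical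
  have claim1 : ∀ (F : Finset I) (y : ∀ i, X' i) (x : ∀ i, X i),
      (fun i => if i ∈ F then y i else μ i (x i)) ∈ S := by
    intro F
    induction F using Finset.induction_on with
    | empty => intro y x; simpa using hr x
    | insert j F hj ih =>
      intro y x
      let z : ∀ i, X' i := fun i => if i ∈ F then y i else μ i (x i)
      let T : Set (X' j) := {t | Function.update z j t ∈ S}
      have hT : ∀ t, t ∈ T := by
        refine (h j).generates ?_ ?_
        · intro a
          show Function.update z j (μ j a) ∈ S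
          have := ih y (Function.update x j a)
          convert this using 1
          funext i
          by_cases hij : i = j
          · subst hij; simp [hj]
          · simp [z, Function.update_of_ne hij]
        · intro D hne hD hDT s hs
          have hc : Continuous (fun t : X' j => Function.update z j t) :=
            continuous_const.update j continuous_id
          refine hS ((fun t => Function.update z j t) '' D) (hne.image _)
            (DirectedOn.image_cont hc hD) ?_ _ (hs.image hc)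
          rintro _ ⟨d, hd, rfl⟩
          exact hDT hd
      have h5 : Function.update z j (y j) ∈ S := hT (y j)
      have h6 : (fun i => if i ∈ insert j F then y i else μ i (x i)) =
          Function.update z j (y j) := by
        funext i
        by_cases hij : i = j
        · subst hij; simp
        · simp [z, hij, Finset.mem_insert]
      rw [h6]; exact h5
  intro y
  have hx : ∀ i, ∃ a : X i, SpecLE (μ i a) (y i) := by
    intro i
    refine (h i).generates (S := {t | ∃ a : X i, SpecLE (μ i a) t}) ?_ ?_ (y i)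
    · exact fun a => ⟨a, specLE_refl _⟩
    · intro D hne hD hDS s hs
      obtain ⟨d, hd⟩ := hne
      obtain ⟨a, ha⟩ := hDS hd
      exact ⟨a, ha.trans (hs.1 d hd)⟩
  choose x hx using hx
  let φ : Finset I → ∀ i, X' i := fun F i => if i ∈ F then y i else μ i (x i)
  have hmono : ∀ F G : Finset I, F ⊆ G → SpecLE (φ F) (φ G) := by
    intro F G hFG
    rw [specLE_pi]
    intro i
    simp only [φ]
    by_cases hF : i ∈ F
    · simp only [hF, hFG hF, if_true]; exact specLE_refl _
    · by_cases hG : i ∈ G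
      · simp only [hF, hG, if_true, if_false]; exact hx i
      · simp only [hF, hG, if_false]; exact specLE_refl _
  refine hS (range φ) ⟨φ ∅, ∅, rfl⟩ ?_ ?_ y ⟨?_, ?_⟩
  · rintro _ ⟨F, rfl⟩ _ ⟨G, rfl⟩
    exact ⟨φ (F ∪ G), ⟨_, rfl⟩, hmono _ _ Finset.subset_union_left,
      hmono _ _ Finset.subset_union_right⟩
  · rintro _ ⟨F, rfl⟩
    exact claim1 F y x
  · rintro _ ⟨F, rfl⟩
    rw [specLE_pi]
    intro i
    simp only [φ]
    by_cases hF : i ∈ F
    · simp only [hF, if_true]; exact specLE_refl _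
    · simp only [hF, if_false]; exact hx i
  · intro U hU hyU
    obtain ⟨F, u, hu, huU⟩ := isOpen_pi_iff.1 hU y hyU
    refine ⟨φ F, ⟨F, rfl⟩, huU ?_⟩
    intro i hi
    have hi' : i ∈ F := hi
    simp only [φ, hi', if_true]
    exact (hu i hi').2

/-- A product of `d`-spaces is a `d`-space. -/
theorem isDSpace_pi {I : Type*} {X : I → Type*} [∀ i, TopologicalSpace (X i)]
    (h : ∀ i, IsDSpace (X i)) : IsDSpace (∀ i, X i) := by
  have h' := fun i => isDSpace_iff.1 (h i)
  rw [isDSpace_iff]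
  have : ∀ i, T0Space (X i) := fun i => (h i).1
  classical
  refine ⟨inferInstance, fun D hne hD => ?_⟩
  have h1 : ∀ i, ∃ s, DLim ((fun x : ∀ i, X i => x i) '' D) s := fun i =>
    (h' i).2 _ (hne.image _) (DirectedOn.image_cont (continuous_apply i) hD)
  choose s hs using h1
  refine ⟨s, ?_, ?_⟩
  · intro d hd
    rw [specLE_pi]
    exact fun i => (hs i).1 _ ⟨d, hd, rfl⟩
  · intro U hU hsU
    obtain ⟨F, u, hu, huU⟩ := isOpen_pi_iff.1 hU s hsU
    have key : ∃ d ∈ D, ∀ i ∈ F, d i ∈ u i := by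
      clear huU
      induction F using Finset.induction_on with
      | empty => obtain ⟨d, hd⟩ := hne; exact ⟨d, hd, by simp⟩
      | insert j F hj ih =>
        obtain ⟨d, hd, hdF⟩ := ih (fun i hi => hu i (Finset.mem_insert_of_mem hi))
        obtain ⟨_, ⟨d', hd', rfl⟩, hd'j⟩ := (hs j).2 (u j) (hu j (Finset.mem_insert_self j F)).1
          (hu j (Finset.mem_insert_self j F)).2
        obtain ⟨c, hc, hdc, hd'c⟩ := hD d hd d' hd'
        refine ⟨c, hc, fun i hi => ?_⟩
        rcases Finset.mem_insert.1 hi with rfl | hi'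
        · exact specLE_iff.1 (specLE_pi.1 hd'c i) _ (hu i hi).1 hd'j
        · exact specLE_iff.1 (specLE_pi.1 hdc i) _ (hu i hi).1 (hdF i hi')
    obtain ⟨d, hd, hdF⟩ := key
    exact ⟨d, hd, huU fun i hi => hdF i hi⟩

/-- The product of `d`-reflections is a `d`-reflection of the product. -/
theorem isDReflection_pi {I : Type u} {X X' : I → Type u} [∀ i, TopologicalSpace (X i)]
    [∀ i, TopologicalSpace (X' i)] {μ : ∀ i, X i → X' i} (h : ∀ i, IsDReflection (μ i)) :
    IsDReflection (fun (x : ∀ i, X i) (i : I) => μ i (x i)) := by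
  set ι : (∀ i, X i) → (∀ i, X' i) := fun x i => μ i (x i) with hι
  have hind : IsInducing ι := IsInducing.piMap fun i => (h i).isInducing
  refine ⟨isDSpace_pi fun i => (h i).1, hind.continuous, ?_⟩
  intro Y _ hY f hf
  have hY' := isDSpace_iff.1 hY
  have hT0 : T0Space Y := hY.1
  -- the open set transfer
  have hθ : ∀ V : Set Y, ∃ W : Set (∀ i, X' i), IsOpen V → (IsOpen W ∧ ι ⁻¹' W = f ⁻¹' V) := by
    intro V
    by_cases hV : IsOpen V
    · obtain ⟨W, hW, hWV⟩ := hind.isOpen_iff.1 (hV.preimage hf)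
      exact ⟨W, fun _ => ⟨hW, hWV⟩⟩
    · exact ⟨∅, fun h => (hV h).elim⟩
  choose θ hθ using hθ
  have hmem : ∀ V, IsOpen V → ∀ x, ι x ∈ θ V ↔ f x ∈ V := by
    intro V hV x
    have := (hθ V hV).2
    constructor
    · intro hx
      have : x ∈ ι ⁻¹' θ V := hx
      rw [(hθ V hV).2] at this
      exact this
    · intro hx
      have : x ∈ f ⁻¹' V := hx
      rw [← (hθ V hV).2] at this
      exact this
  have hex : ∀ y : ∀ i, X' i, ∃ z : Y, ∀ V, IsOpen V → (z ∈ V ↔ y ∈ θ V) := by
    refine pi_generates h (S := {y | ∃ z : Y, ∀ V, IsOpen V → (z ∈ V ↔ y ∈ θ V)}) ?_ ?_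
    · intro x
      exact ⟨f x, fun V hV => (hmem V hV x).symm⟩
    · intro D hne hD hDS s hs
      have hYne : Nonempty Y := by
        obtain ⟨d, hd⟩ := hne
        obtain ⟨z, -⟩ := hDS hd
        exact ⟨z⟩
      have hDS' : ∀ d ∈ D, ∃ z : Y, ∀ V, IsOpen V → (z ∈ V ↔ d ∈ θ V) := fun d hd => hDS hd
      choose! z hz using hDS'
      have hzdir : DirectedOn SpecLE (z '' D) := by
        rintro _ ⟨a, ha, rfl⟩ _ ⟨b, hb, rfl⟩
        obtain ⟨c, hc, hac, hbc⟩ := hD a ha b hb
        have hmono : ∀ d ∈ D, SpecLE d c → SpecLE (z d) (z c) := by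
          intro d hd hdc
          rw [specLE_iff]
          intro V hV hdV
          rw [hz c hc V hV]
          exact specLE_iff.1 hdc _ (hθ V hV).1 ((hz d hd V hV).1 hdV)
        exact ⟨z c, ⟨c, hc, rfl⟩, hmono a ha hac, hmono b hb hbc⟩
      obtain ⟨t, ht⟩ := hY'.2 _ (hne.image z) hzdir
      refine ⟨t, fun V hV => ⟨fun htV => ?_, fun hsV => ?_⟩⟩
      · obtain ⟨_, ⟨d, hd, rfl⟩, hdV⟩ := ht.2 V hV htV
        exact specLE_iff.1 (hs.1 d hd) _ (hθ V hV).1 ((hz d hd V hV).1 hdV)
      · obtain ⟨d, hd, hdV⟩ := hs.2 _ (hθ V hV).1 hsV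
        exact specLE_iff.1 (ht.1 _ ⟨d, hd, rfl⟩) V hV ((hz d hd V hV).2 hdV)
  choose g hg using hex
  refine ⟨g, ⟨?_, ?_⟩, ?_⟩
  · refine continuous_def.2 fun V hV => ?_
    have : g ⁻¹' V = θ V := by
      ext y; exact hg y V hV
    rw [this]; exact (hθ V hV).1
  · funext x
    refine eq_of_specLE (specLE_iff.2 fun V hV hx => ?_) (specLE_iff.2 fun V hV hx => ?_)
    · exact (hmem V hV x).1 ((hg _ V hV).1 hx)
    · exact (hg _ V hV).2 ((hmem V hV x).2 hx)
  · rintro k ⟨hk, hkι⟩
    have hgc : Continuous g := by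
      refine continuous_def.2 fun V hV => ?_
      have : g ⁻¹' V = θ V := by
        ext y; exact hg y V hV
      rw [this]; exact (hθ V hV).1
    funext y
    refine pi_generates h (S := {y | k y = g y}) ?_ ?_ y
    · intro x
      show k (ι x) = g (ι x)
      have h1 : k (ι x) = f x := congrFun hkι x
      rw [h1]
      refine eq_of_specLE (specLE_iff.2 fun V hV hx => ?_) (specLE_iff.2 fun V hV hx => ?_)
      · exact (hg _ V hV).2 ((hmem V hV x).2 hx)
      · exact (hmem V hV x).1 ((hg _ V hV).1 hx)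
    · intro D hne hD hDS s hs
      have h1 : k '' D = g '' D := by
        refine image_congr fun a ha => hDS ha
      have h2 := hs.image hk
      rw [h1] at h2
      exact h2.unique (hs.image hgc)

/-- A `d`-reflection is unique up to homeomorphism. -/
theorem IsDReflection.homeo {X A B : Type u} [TopologicalSpace X] [TopologicalSpace A]
    [TopologicalSpace B] {α : X → A} {β : X → B} (hα : IsDReflection α) (hβ : IsDReflection β) :
    ∃ e : A ≃ₜ B, ∀ x, e (α x) = β x := by
  obtain ⟨f, ⟨hf, hfα⟩, -⟩ := hα.2.2 B hβ.1 β hβ.2.1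
  obtain ⟨g, ⟨hg, hgβ⟩, -⟩ := hβ.2.2 A hα.1 α hα.2.1
  obtain ⟨a, -, ha⟩ := hα.2.2 A hα.1 α hα.2.1
  obtain ⟨b, -, hb⟩ := hβ.2.2 B hβ.1 β hβ.2.1
  have h1 : g ∘ f = id := by
    rw [ha (g ∘ f) ⟨hg.comp hf, by rw [Function.comp_assoc, hfα, hgβ]⟩,
      ha id ⟨continuous_id, rfl⟩]
  have h2 : f ∘ g = id := by
    rw [hb (f ∘ g) ⟨hf.comp hg, by rw [Function.comp_assoc, hgβ, hfα]⟩,
      hb id ⟨continuous_id, rfl⟩]
  exact ⟨⟨⟨f, g, congrFun h1, congrFun h2⟩, hf, hg⟩, congrFun hfα⟩

/-- The `d`-reflection preserves arbitrary products: if `(X' i, μ i)` is a `d`-reflection of the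
`T₀` space `X i` for every `i`, then the product of the `X' i` with the product of the maps
`μ i` is a `d`-reflection of the product of the `X i`; hence every `d`-reflection
of the product of the `X i` is homeomorphic to the product of the `X' i`. -/
theorem result {I : Type u} (X X' : I → Type u) [∀ i, TopologicalSpace (X i)]
    [∀ i, TopologicalSpace (X' i)] [∀ i, T0Space (X i)] (μ : ∀ i, X i → X' i)
    (h : ∀ i, IsDReflection (μ i)) :
    IsDReflection (fun (x : ∀ i, X i) (i : I) => μ i (x i)) ∧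
    ∀ (Z : Type u) [TopologicalSpace Z] (ν : (∀ i, X i) → Z), IsDReflection ν →
      ∃ e : Z ≃ₜ (∀ i, X' i), ∀ x, e (ν x) = fun i => μ i (x i) :=
  ⟨isDReflection_pi h, fun _ _ _ hν => hν.homeo (isDReflection_pi h)⟩

end Pool.Agent.Results.MP_c8df5e_gt.DReflectionProducts
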